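import Mathlib
import Pool.Agent.MP_b30265_an.Defs

section

open MeasureTheory Filter Topology Real

noncomputable section

namespace Pool.Agent.MP_b30265_an

instance factTwoPi : Fact (0 < 2 * π) := ⟨Real.two_pi_pos⟩

abbrev Tc : Type := AddCircle (2 * π)

abbrev hm : Measure Tc := AddCircle.haarAddCircle

/-- complex trigonometric polynomials with spectrum in the multiples of `L` of size at most `D` -/
def TPc (L D : ℕ) (g : Tc → ℂ) : Prop :=
  g ∈ Submodule.span ℂ ((fun n : ℤ => ((fourier n : C(Tc, ℂ)) : Tc → ℂ)) ''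
    {n : ℤ | (L : ℤ) ∣ n ∧ n.natAbs ≤ D})

def TP (L D : ℕ) (f : Tc → ℝ) : Prop := TPc L D (fun x => (f x : ℂ))

lemma TPc.induction {L D : ℕ} {p : (Tc → ℂ) → Prop}
    (hb : ∀ n : ℤ, (L : ℤ) ∣ n → n.natAbs ≤ D → p (fun x => fourier n x))
    (h0 : p (fun _ => 0))
    (hadd : ∀ f g, p f → p g → p (fun x => f x + g x))
    (hsmul : ∀ (c : ℂ) f, p f → p (fun x => c * f x))
    {g : Tc → ℂ} (hg : TPc L D g) : p g := by
  unfold TPc at hg
  induction hg using Submodule.span_induction with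
  | mem x hx =>
    obtain ⟨n, ⟨h1, h2⟩, rfl⟩ := hx
    exact hb n h1 h2
  | zero => exact h0
  | add x y _ _ hx hy => exact hadd x y hx hy
  | smul a x _ hx => exact hsmul a x hx

lemma TPc.basis {L D : ℕ} {n : ℤ} (h1 : (L : ℤ) ∣ n) (h2 : n.natAbs ≤ D) :
    TPc L D (fun x => fourier n x) :=
  Submodule.subset_span ⟨n, ⟨h1, h2⟩, rfl⟩

lemma TPc.zero (L D : ℕ) : TPc L D (fun _ => 0) := Submodule.zero_mem _

lemma TPc.add {L D : ℕ} {f g : Tc → ℂ} (hf : TPc L D f) (hg : TPc L D g) :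
    TPc L D (fun x => f x + g x) := Submodule.add_mem _ hf hg

lemma TPc.smul {L D : ℕ} {f : Tc → ℂ} (c : ℂ) (hf : TPc L D f) :
    TPc L D (fun x => c * f x) := Submodule.smul_mem _ c hf

lemma TPc.const (L D : ℕ) (c : ℂ) : TPc L D (fun _ => c) := by
  have h := (TPc.basis (L := L) (D := D) (n := 0) (dvd_zero _) (by simp)).smul c
  simpa using h

lemma TPc.continuous {L D : ℕ} {g : Tc → ℂ} (hg : TPc L D g) : Continuous g := by
  refine TPc.induction (p := fun g => Continuous g) ?_ ?_ ?_ ?_ hg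
  · intro n _ _; exact (fourier n).continuous
  · exact continuous_const
  · intro f g hf hg; exact hf.add hg
  · intro c f hf; exact continuous_const.mul hf

lemma TPc.mono {L D L' D' : ℕ} (hL : L' ∣ L) (hD : D ≤ D') {g : Tc → ℂ} (hg : TPc L D g) :
    TPc L' D' g := by
  refine TPc.induction (p := fun g => TPc L' D' g) ?_ ?_ ?_ ?_ hg
  · intro n h1 h2
    exact TPc.basis ((Int.natCast_dvd_natCast.2 hL).trans h1) (h2.trans hD)
  · exact TPc.zero _ _
  · intro f g hf hg; exact hf.add hg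
  · intro c f hf; exact hf.smul c

lemma TPc.mul {L D E : ℕ} {f g : Tc → ℂ} (hf : TPc L D f) (hg : TPc L E g) :
    TPc L (D + E) (fun x => f x * g x) := by
  refine TPc.induction (p := fun f => TPc L (D + E) (fun x => f x * g x)) ?_ ?_ ?_ ?_ hf
  · intro n h1 h2
    refine TPc.induction (p := fun g => TPc L (D + E) (fun x => fourier n x * g x)) ?_ ?_ ?_ ?_ hg
    · intro k k1 k2
      have : (fun x : Tc => fourier n x * fourier k x) = fun x => fourier (n + k) x := by
        ext x; rw [fourier_add]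
      rw [this]
      exact TPc.basis (dvd_add h1 k1) ((Int.natAbs_add_le _ _).trans (add_le_add h2 k2))
    · simpa using TPc.zero _ _
    · intro f g hf hg
      simpa [mul_add] using hf.add hg
    · intro c f hf
      have := hf.smul c
      convert this using 2
      ring
  · simpa using TPc.zero _ _
  · intro f g hf hg
    simpa [add_mul] using hf.add hg
  · intro c f hf
    have := hf.smul c
    convert this using 2
    ring

lemma TPc.conj {L D : ℕ} {g : Tc → ℂ} (hg : TPc L D g) :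
    TPc L D (fun x => (starRingEnd ℂ) (g x)) := by
  refine TPc.induction (p := fun g => TPc L D (fun x => (starRingEnd ℂ) (g x))) ?_ ?_ ?_ ?_ hg
  · intro n h1 h2
    have : (fun x : Tc => (starRingEnd ℂ) (fourier n x)) = fun x => fourier (-n) x := by
      ext x; rw [fourier_neg]
    rw [this]
    exact TPc.basis ((dvd_neg).2 h1) (by simpa using h2)
  · simpa using TPc.zero _ _
  · intro f g hf hg
    simpa using hf.add hg
  · intro c f hf
    simpa using hf.smul ((starRingEnd ℂ) c)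

lemma TPc.re {L D : ℕ} {g : Tc → ℂ} (hg : TPc L D g) : TP L D (fun x => (g x).re) := by
  unfold TP
  have := (hg.add hg.conj).smul (1 / 2)
  convert this using 2 with x
  rw [Complex.add_conj]
  push_cast
  ring

lemma TPc.scale {D : ℕ} (L : ℕ) {g : Tc → ℂ} (hg : TPc 1 D g) :
    TPc L (D * L) (fun x => g ((L : ℤ) • x)) := by
  refine TPc.induction (p := fun g => TPc L (D * L) (fun x => g ((L : ℤ) • x))) ?_ ?_ ?_ ?_ hg
  · intro n _ h2
    have : (fun x : Tc => fourier n ((L : ℤ) • x)) = fun x => fourier (n * L) x := by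
      ext x; simp only [fourier_apply, mul_smul]
    rw [this]
    refine TPc.basis (Dvd.intro_left _ rfl) ?_
    rw [Int.natAbs_mul, Int.natAbs_natCast]
    exact Nat.mul_le_mul_right _ h2
  · exact TPc.zero _ _
  · intro f g hf hg; exact hf.add hg
  · intro c f hf; exact hf.smul c

lemma integrable_of_continuous {E : Type*} [NormedAddCommGroup E] {g : Tc → E}
    (μ : Measure Tc) [IsFiniteMeasure μ] (hg : Continuous g) : Integrable g μ :=
  hg.integrable_of_hasCompactSupport (HasCompactSupport.of_compactSpace g)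

lemma integral_fourier (n : ℤ) : ∫ x, fourier n x ∂hm = if n = 0 then 1 else 0 := by
  split_ifs with h
  · subst h; simp
  · exact integral_eq_zero_of_add_right_eq_neg (μ := hm)
      (fourier_add_half_inv_index h Real.two_pi_pos)

lemma TPc.indep {L D E : ℕ} {f g : Tc → ℂ} (hf : TPc 1 D f) (hg : TPc L E g) (hDL : D < L) :
    ∫ x, f x * g x ∂hm = (∫ x, f x ∂hm) * ∫ x, g x ∂hm := by
  have key : Continuous f ∧ ∫ x, f x * g x ∂hm = (∫ x, f x ∂hm) * ∫ x, g x ∂hm := by
    refine TPc.induction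
      (p := fun f => Continuous f ∧ ∫ x, f x * g x ∂hm = (∫ x, f x ∂hm) * ∫ x, g x ∂hm)
      ?_ ?_ ?_ ?_ hf
    · intro n _ h2
      refine ⟨(fourier n).continuous, ?_⟩
      have key2 : Continuous g ∧
          ∫ x, fourier n x * g x ∂hm = (∫ x, fourier n x ∂hm) * ∫ x, g x ∂hm := by
        refine TPc.induction (p := fun g => Continuous g ∧
          ∫ x, fourier n x * g x ∂hm = (∫ x, fourier n x ∂hm) * ∫ x, g x ∂hm) ?_ ?_ ?_ ?_ hg
        · intro k k1 _
          refine ⟨(fourier k).continuous, ?_⟩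
          have : (fun x : Tc => fourier n x * fourier k x) = fun x => fourier (n + k) x := by
            ext x; rw [fourier_add]
          rw [this, integral_fourier, integral_fourier, integral_fourier]
          by_cases hk : k = 0
          · subst hk; simp
          · have hnk : n + k ≠ 0 := by
              intro h
              have h3 : n = -k := by omega
              have h4 : L ≤ k.natAbs := by
                have := Int.natAbs_le_of_dvd_ne_zero k1 hk
                simpa using this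
              rw [h3, Int.natAbs_neg] at h2
              omega
            simp [hk, hnk]
        · exact ⟨continuous_const, by simp⟩
        · rintro f g ⟨cf, hf⟩ ⟨cg, hg⟩
          refine ⟨cf.add cg, ?_⟩
          simp only [mul_add]
          rw [integral_add (integrable_of_continuous _ ((fourier n).continuous.fun_mul cf))
            (integrable_of_continuous _ ((fourier n).continuous.fun_mul cg)),
            integral_add (integrable_of_continuous _ cf) (integrable_of_continuous _ cg), hf, hg]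
          ring
        · rintro c f ⟨cf, hf⟩
          refine ⟨continuous_const.mul cf, ?_⟩
          have : (fun x : Tc => fourier n x * (c * f x)) = fun x => c * (fourier n x * f x) := by
            ext x; ring
          rw [this, integral_const_mul, integral_const_mul, hf]
          ring
      exact key2.2
    · exact ⟨continuous_const, by simp⟩
    · rintro f1 f2 ⟨c1, h1⟩ ⟨c2, h2⟩
      refine ⟨c1.add c2, ?_⟩
      simp only [add_mul]
      rw [integral_add (integrable_of_continuous _ (c1.fun_mul hg.continuous))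
        (integrable_of_continuous _ (c2.fun_mul hg.continuous)),
        integral_add (integrable_of_continuous _ c1) (integrable_of_continuous _ c2), h1, h2]
      ring
    · rintro c f ⟨cf, hf⟩
      refine ⟨continuous_const.mul cf, ?_⟩
      have : (fun x : Tc => c * f x * g x) = fun x => c * (f x * g x) := by
        ext x; ring
      rw [this, integral_const_mul, integral_const_mul, hf]
      ring
  exact key.2

lemma TP.continuous {L D : ℕ} {f : Tc → ℝ} (hf : TP L D f) : Continuous f := by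
  have := Complex.continuous_re.comp (TPc.continuous hf)
  simpa [Function.comp_def] using this

lemma TP.const (L D : ℕ) (c : ℝ) : TP L D (fun _ => c) := TPc.const L D c

lemma TP.add {L D : ℕ} {f g : Tc → ℝ} (hf : TP L D f) (hg : TP L D g) :
    TP L D (fun x => f x + g x) := by
  unfold TP at *
  simpa using TPc.add hf hg

lemma TP.smul {L D : ℕ} {f : Tc → ℝ} (c : ℝ) (hf : TP L D f) : TP L D (fun x => c * f x) := by
  unfold TP at *
  simpa using TPc.smul c hf

lemma TP.sub {L D : ℕ} {f g : Tc → ℝ} (hf : TP L D f) (hg : TP L D g) :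
    TP L D (fun x => f x - g x) := by
  have := hf.add (hg.smul (-1))
  convert this using 2
  ring

lemma TP.mul {L D E : ℕ} {f g : Tc → ℝ} (hf : TP L D f) (hg : TP L E g) :
    TP L (D + E) (fun x => f x * g x) := by
  unfold TP at *
  simpa using TPc.mul hf hg

lemma TP.mono {L D L' D' : ℕ} (hL : L' ∣ L) (hD : D ≤ D') {g : Tc → ℝ} (hg : TP L D g) :
    TP L' D' g := TPc.mono hL hD hg

lemma TP.pow {L D : ℕ} {f : Tc → ℝ} (hf : TP L D f) (m : ℕ) :
    TP L (m * D) (fun x => f x ^ m) := by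
  induction m with
  | zero => simpa using TP.const L 0 1
  | succ m ih =>
    have := ih.mul hf
    simpa [pow_succ, add_mul] using this

lemma TP.scale {D : ℕ} (L : ℕ) {g : Tc → ℝ} (hg : TP 1 D g) :
    TP L (D * L) (fun x => g ((L : ℤ) • x)) := TPc.scale L hg

lemma TP.indep {L D E : ℕ} {f g : Tc → ℝ} (hf : TP 1 D f) (hg : TP L E g) (hDL : D < L) :
    ∫ x, f x * g x ∂hm = (∫ x, f x ∂hm) * ∫ x, g x ∂hm := by
  have := TPc.indep hf hg hDL
  rw [integral_complex_ofReal, integral_complex_ofReal] at this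
  have h2 : (fun x => ((f x : ℂ) * (g x : ℂ))) = fun x => ((f x * g x : ℝ) : ℂ) := by
    ext x; push_cast; rfl
  rw [h2, integral_complex_ofReal] at this
  exact_mod_cast this

lemma integral_scale {L : ℕ} (hL : L ≠ 0) {g : Tc → ℝ} (hg : Continuous g) :
    ∫ x, g ((L : ℤ) • x) ∂hm = ∫ x, g x ∂hm := by
  have hmp : MeasurePreserving (fun x : Tc => (L : ℤ) • x) hm hm :=
    Measure.measurePreserving_zsmul hm (by exact_mod_cast hL)
  conv_rhs => rw [← hmp.map_eq]
  rw [integral_map hmp.measurable.aemeasurable hg.aestronglyMeasurable]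

/-- the function `cos (n x)` on the circle -/
def cs (n : ℕ) (x : Tc) : ℝ := (fourier (n : ℤ) x).re

lemma cs_coe (n : ℕ) (x : ℝ) : cs n (x : Tc) = Real.cos (n * x) := by
  unfold cs
  rw [fourier_coe_apply]
  have : (2 * π * Complex.I * ((n : ℤ) : ℂ) * x / ((2 * π : ℝ) : ℂ)) = ((n * x : ℝ) : ℂ) * Complex.I := by
    have hp : (π : ℂ) ≠ 0 := by exact_mod_cast Real.pi_ne_zero
    push_cast
    field_simp
  rw [this, Complex.exp_ofReal_mul_I_re]

lemma TP.cs (n : ℕ) : TP n n (cs n) :=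
  TPc.re (TPc.basis (dvd_refl _) (by simp))

lemma integral_cs {n : ℕ} (hn : n ≠ 0) : ∫ x, cs n x ∂hm = 0 := by
  unfold cs
  have h := integral_fourier (n : ℤ)
  rw [if_neg (by exact_mod_cast hn)] at h
  have h2 := integral_re (𝕜 := ℂ) (μ := hm) (f := fun x : Tc => fourier (n : ℤ) x)
    (integrable_of_continuous _ (fourier _).continuous)
  rw [h] at h2
  simpa using h2

lemma abs_cs_le (n : ℕ) (x : Tc) : |cs n x| ≤ 1 := by
  induction x using QuotientAddGroup.induction_on
  rw [cs_coe]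
  exact Real.abs_cos_le_one _

lemma cs_smul (n L : ℕ) (x : Tc) : cs n ((L : ℤ) • x) = cs (n * L) x := by
  unfold cs
  simp only [fourier_apply, Nat.cast_mul, mul_smul]

lemma cs_three (x : Tc) : cs 3 x = 4 * cs 1 x ^ 3 - 3 * cs 1 x := by
  induction x using QuotientAddGroup.induction_on
  rw [cs_coe, cs_coe]
  simpa using Real.cos_three_mul _

end Pool.Agent.MP_b30265_an

end
end

section

open MeasureTheory Filter Topology Real

noncomputable section

namespace Pool.Agent.MP_b30265_an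

/-- finite Riesz product with real coefficients and frequencies `3 ^ n` -/
def PP (r : ℕ → ℝ) (N : ℕ) (x : Tc) : ℝ := ∏ n ∈ Finset.range N, (1 + r n * cs (3 ^ n) x)

def DD (N : ℕ) : ℕ := ∑ n ∈ Finset.range N, 3 ^ n

lemma DD_eq (N : ℕ) : 2 * DD N + 1 = 3 ^ N := by
  induction N with
  | zero => simp [DD]
  | succ N ih =>
    unfold DD at *
    rw [Finset.sum_range_succ, pow_succ]
    omega

lemma TP_factor (c : ℝ) (n : ℕ) : TP n n (fun x => 1 + c * cs n x) :=
  (TP.const n n 1).add ((TP.cs n).smul c)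

lemma integral_factor (c : ℝ) {n : ℕ} (hn : n ≠ 0) : ∫ x, (1 + c * cs n x) ∂hm = 1 := by
  rw [integral_add (integrable_const _)
    (integrable_of_continuous _ (continuous_const.fun_mul (TP.cs n).continuous)),
    integral_const_mul, integral_cs hn]
  simp

lemma TP_PP (r : ℕ → ℝ) (N : ℕ) : TP 1 (DD N) (PP r N) := by
  induction N with
  | zero =>
    have : PP r 0 = fun _ => 1 := by ext x; simp [PP]
    rw [this]
    exact TP.const _ _ 1
  | succ N ih =>
    have h := ih.mul ((TP_factor (r N) (3 ^ N)).mono (one_dvd _) le_rfl)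
    have e : DD (N + 1) = DD N + 3 ^ N := by simp [DD, Finset.sum_range_succ]
    rw [e]
    convert h using 2 with x
    simp [PP, Finset.prod_range_succ]

lemma PP_nonneg {r : ℕ → ℝ} (hr : ∀ n, |r n| ≤ 1) (N : ℕ) (x : Tc) : 0 ≤ PP r N x := by
  refine Finset.prod_nonneg fun n _ => ?_
  have h1 : |r n * cs (3 ^ n) x| ≤ 1 := by
    rw [abs_mul]
    exact mul_le_one₀ (hr n) (abs_nonneg _) (abs_cs_le _ _)
  linarith [neg_abs_le (r n * cs (3 ^ n) x)]

lemma integral_mul_PP_succ (r : ℕ → ℝ) {K N : ℕ} {g : Tc → ℝ} (hg : TP 1 K g)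
    (h : K + DD N < 3 ^ N) :
    ∫ x, g x * PP r (N + 1) x ∂hm = ∫ x, g x * PP r N x ∂hm := by
  have h1 := (hg.mul (TP_PP r N)).indep (TP_factor (r N) (3 ^ N)) h
  rw [integral_factor _ (by positivity), mul_one] at h1
  rw [← h1]
  congr 1
  ext x
  simp [PP, Finset.prod_range_succ, mul_assoc]

lemma integral_PP (r : ℕ → ℝ) (N : ℕ) : ∫ x, PP r N x ∂hm = 1 := by
  induction N with
  | zero => simp [PP]
  | succ N ih =>
    have h := integral_mul_PP_succ r (N := N) (TP.const 1 0 1) (by have := DD_eq N; omega)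
    simp only [one_mul] at h
    rw [h, ih]

lemma integral_mul_PP_stable (r : ℕ → ℝ) {K : ℕ} {g : Tc → ℝ} (hg : TP 1 K g) {N : ℕ}
    (hN : K ≤ N) : ∫ x, g x * PP r N x ∂hm = ∫ x, g x * PP r K x ∂hm := by
  induction N, hN using Nat.le_induction with
  | base => rfl
  | succ N hN ih =>
    rw [integral_mul_PP_succ r hg, ih]
    have h1 := DD_eq N
    have h2 : 2 * N + 1 ≤ 3 ^ N := by
      clear h1 ih hN
      induction N with
      | zero => simp
      | succ N ih => rw [pow_succ]; omega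
    omega

lemma exists_TP_near (f : C(Tc, ℝ)) {ε : ℝ} (hε : 0 < ε) :
    ∃ (K : ℕ) (g : Tc → ℝ), TP 1 K g ∧ ∀ x, |f x - g x| ≤ ε := by
  let F : C(Tc, ℂ) := ⟨fun x => (f x : ℂ), by fun_prop⟩
  have hF : F ∈ (Submodule.span ℂ (Set.range (@fourier (2 * π)))).topologicalClosure := by
    rw [span_fourier_closure_eq_top]; trivial
  have hF' : F ∈ closure (Submodule.span ℂ (Set.range (@fourier (2 * π))) : Set C(Tc, ℂ)) := hF
  obtain ⟨G, hG, hd⟩ := Metric.mem_closure_iff.1 hF' ε hε
  have hG' : ∃ K : ℕ, TPc 1 K (fun x => G x) := by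
    clear hd
    induction hG using Submodule.span_induction with
    | mem x hx =>
      obtain ⟨n, rfl⟩ := hx
      exact ⟨n.natAbs, TPc.basis (by simp) le_rfl⟩
    | zero => exact ⟨0, TPc.zero _ _⟩
    | add x y _ _ hx hy =>
      obtain ⟨K1, h1⟩ := hx
      obtain ⟨K2, h2⟩ := hy
      exact ⟨K1 + K2, (h1.mono dvd_rfl (Nat.le_add_right _ _)).add
        (h2.mono dvd_rfl (Nat.le_add_left _ _))⟩
    | smul a x _ hx =>
      obtain ⟨K1, h1⟩ := hx
      exact ⟨K1, h1.smul a⟩
  obtain ⟨K, hK⟩ := hG'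
  refine ⟨K, fun x => (G x).re, hK.re, fun x => ?_⟩
  have h1 : dist (F x) (G x) ≤ dist F G := ContinuousMap.dist_apply_le_dist x
  have h2 : |(F x - G x).re| ≤ ‖F x - G x‖ := Complex.abs_re_le_norm _
  rw [dist_eq_norm] at h1
  have h3 : (F x - G x).re = f x - (G x).re := by simp [F]
  rw [h3] at h2
  linarith

lemma cauchy_PP {r : ℕ → ℝ} (hr : ∀ n, |r n| ≤ 1) (f : C(Tc, ℝ)) :
    CauchySeq (fun N => ∫ x, f x * PP r N x ∂hm) := by
  rw [Metric.cauchySeq_iff']
  intro ε hε
  obtain ⟨K, g, hg, hfg⟩ := exists_TP_near f (show 0 < ε / 3 by positivity)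
  have key : ∀ N, |∫ x, f x * PP r N x ∂hm - ∫ x, g x * PP r N x ∂hm| ≤ ε / 3 := by
    intro N
    have cP := (TP_PP r N).continuous
    rw [← integral_sub (integrable_of_continuous _ (f.continuous.fun_mul cP))
      (integrable_of_continuous _ (hg.continuous.fun_mul cP))]
    refine (abs_integral_le_integral_abs).trans ?_
    calc ∫ x, |f x * PP r N x - g x * PP r N x| ∂hm ≤ ∫ x, ε / 3 * PP r N x ∂hm := by
          refine integral_mono (integrable_of_continuous _
            ((f.continuous.fun_mul cP).fun_sub (hg.continuous.fun_mul cP)).abs) ?_ ?_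
          · exact integrable_of_continuous _ (continuous_const.fun_mul cP)
          · intro x
            have h0 := PP_nonneg hr N x
            simp only
            rw [← sub_mul, abs_mul, abs_of_nonneg h0]
            exact mul_le_mul_of_nonneg_right (hfg x) h0
      _ = ε / 3 := by rw [integral_const_mul, integral_PP, mul_one]
  refine ⟨K, fun N hN => ?_⟩
  have h1 := key N
  have h2 := key K
  rw [integral_mul_PP_stable r hg hN] at h1
  rw [Real.dist_eq, abs_lt]
  rw [abs_le] at h1 h2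
  constructor <;> linarith [h1.1, h1.2, h2.1, h2.2]

/-- `μ` is the weak limit of the finite products -/
def IsLim (r : ℕ → ℝ) (μ : Measure Tc) : Prop :=
  IsProbabilityMeasure μ ∧ ∀ f : C(Tc, ℝ),
    Tendsto (fun N => ∫ x, f x * PP r N x ∂hm) atTop (𝓝 (∫ x, f x ∂μ))

lemma exists_isLim {r : ℕ → ℝ} (hr : ∀ n, |r n| ≤ 1) : ∃ μ, IsLim r μ := by
  have hmeas : ∀ N, Measurable (fun x => (PP r N x).toNNReal) := fun N =>
    (TP_PP r N).continuous.measurable.real_toNNReal
  have hint : ∀ N (f : Tc → ℝ), ∫ x, f x ∂(hm.withDensity (fun x => ((PP r N x).toNNReal : ENNReal)))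
      = ∫ x, f x * PP r N x ∂hm := by
    intro N f
    rw [integral_withDensity_eq_integral_smul (hmeas N)]
    congr 1
    ext x
    rw [NNReal.smul_def, Real.coe_toNNReal _ (PP_nonneg hr N x), smul_eq_mul, mul_comm]
  have hprob : ∀ N, IsProbabilityMeasure
      (hm.withDensity (fun x => ((PP r N x).toNNReal : ENNReal))) := by
    intro N
    constructor
    rw [withDensity_apply _ MeasurableSet.univ, Measure.restrict_univ]
    have := ofReal_integral_eq_lintegral_ofReal (μ := hm) (f := PP r N)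
      (integrable_of_continuous _ (TP_PP r N).continuous)
      (Eventually.of_forall (PP_nonneg hr N))
    rw [integral_PP] at this
    simpa [ENNReal.ofReal] using this.symm
  let ν : ℕ → ProbabilityMeasure Tc := fun N => ⟨_, hprob N⟩
  obtain ⟨μ, hμ⟩ : ∃ μ : ProbabilityMeasure Tc, MapClusterPt μ atTop ν := by
    obtain ⟨μ, -, h⟩ := isCompact_univ.exists_mapClusterPt (f := atTop) (u := ν) (by simp)
    exact ⟨μ, h⟩
  refine ⟨μ, inferInstance, fun f => ?_⟩
  obtain ⟨l, hl⟩ := cauchySeq_tendsto_of_complete (cauchy_PP hr f)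
  have hc : Continuous (fun ρ : ProbabilityMeasure Tc => ∫ x, f x ∂(ρ : Measure Tc)) :=
    ProbabilityMeasure.continuous_integral_continuousMap f
  have h1 := hμ.continuousAt_comp hc.continuousAt
  have h2 : ((fun ρ : ProbabilityMeasure Tc => ∫ x, f x ∂(ρ : Measure Tc)) ∘ ν)
      = fun N => ∫ x, f x * PP r N x ∂hm := by
    ext N
    exact hint N f
  rw [h2] at h1
  have h3 : ∫ x, f x ∂(μ : Measure Tc) = l := by
    have h4 : ClusterPt (∫ x, f x ∂(μ : Measure Tc)) (𝓝 l) := ClusterPt.mono h1 hl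
    exact eq_of_nhds_neBot h4
  rw [h3]
  exact hl

end Pool.Agent.MP_b30265_an

end
end

section

open MeasureTheory Filter Topology Real

noncomputable section

namespace Pool.Agent.MP_b30265_an

/-- coefficient sequence: `A k` at index `(k+1)^2`, `G k` at index `(k+1)^2+1`, zero elsewhere -/
def coef (A G : ℕ → ℝ) (n : ℕ) : ℝ :=
  if n = 0 then 0 else if n = (Nat.sqrt n) ^ 2 then A (Nat.sqrt n - 1)
  else if n = (Nat.sqrt n) ^ 2 + 1 then G (Nat.sqrt n - 1) else 0

def Lam (k : ℕ) : ℕ := 3 ^ ((k + 1) ^ 2)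

def blk (α γ : ℝ) (y : Tc) : ℝ := (1 + α * cs 1 y) * (1 + γ * cs 3 y)

lemma coef_at (A G : ℕ → ℝ) (k i : ℕ) (hi : i ≤ 2 * k + 2) :
    coef A G ((k + 1) ^ 2 + i) = if i = 0 then A k else if i = 1 then G k else 0 := by
  have hs : Nat.sqrt ((k + 1) ^ 2 + i) = k + 1 := Nat.sqrt_add_eq' (k + 1) (by omega)
  unfold coef
  rw [hs, if_neg (by positivity)]
  simp

lemma PP_pos (A G : ℕ → ℝ) (K : ℕ) (x : Tc) :
    PP (coef A G) ((K + 1) ^ 2) x = ∏ k ∈ Finset.range K, blk (A k) (G k) ((Lam k : ℤ) • x) := by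
  induction K with
  | zero => simp [PP, coef]
  | succ K ih =>
    rw [Finset.prod_range_succ, ← ih]
    have e : (K + 1 + 1) ^ 2 = (K + 1) ^ 2 + ((2 * K + 1) + 1 + 1) := by ring
    unfold PP
    rw [e, Finset.prod_range_add]
    congr 1
    rw [Finset.prod_range_succ', Finset.prod_range_succ', Finset.prod_eq_one, one_mul]
    · rw [coef_at A G K (0 + 1) (by omega), coef_at A G K 0 (by omega)]
      simp only [blk, cs_smul, Lam]
      simp [pow_succ, mul_comm]
    · intro i hi
      rw [Finset.mem_range] at hi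
      rw [coef_at A G K (i + 1 + 1) (by omega)]
      simp

lemma Lam_pos (k : ℕ) : 0 < Lam k := by unfold Lam; positivity

lemma Lam_succ (k : ℕ) : Lam (k + 1) = 3 ^ (2 * k + 3) * Lam k := by
  unfold Lam
  rw [← pow_add]
  congr 1
  ring

lemma block_indep (g : ℕ → Tc → ℝ) (d : ℕ → ℕ) (hg : ∀ k, TP 1 (d k) (g k))
    (hd : ∀ k, d k + 1 ≤ 3 ^ (2 * k + 3)) (K : ℕ) :
    (∃ E, E < Lam K ∧ TP 1 E (fun x => ∏ k ∈ Finset.range K, g k ((Lam k : ℤ) • x))) ∧
      ∫ x, ∏ k ∈ Finset.range K, g k ((Lam k : ℤ) • x) ∂hm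
        = ∏ k ∈ Finset.range K, ∫ x, g k x ∂hm := by
  induction K with
  | zero =>
    refine ⟨⟨0, Lam_pos 0, ?_⟩, by simp⟩
    simpa using TP.const 1 0 1
  | succ K ih =>
    obtain ⟨⟨E, hE, hT⟩, hI⟩ := ih
    have h1 := (hg K).scale (Lam K)
    refine ⟨⟨E + d K * Lam K, ?_, ?_⟩, ?_⟩
    · rw [Lam_succ]
      have := Nat.mul_le_mul_right (Lam K) (hd K)
      nlinarith
    · simp only [Finset.prod_range_succ]
      exact hT.mul (h1.mono (one_dvd _) le_rfl)
    · simp only [Finset.prod_range_succ]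
      rw [hT.indep h1 hE, hI, integral_scale (Lam_pos K).ne' (hg K).continuous]

lemma TP_blk (α γ : ℝ) : TP 1 4 (blk α γ) := by
  have h1 : TP 1 1 (fun x => 1 + α * cs 1 x) := TP_factor α 1
  have h2 : TP 1 3 (fun x => 1 + γ * cs 3 x) := TP.mono (one_dvd 3) le_rfl (TP_factor γ 3)
  have h3 := TP.mul h1 h2
  unfold blk
  exact h3

lemma integral_blk (α γ : ℝ) : ∫ x, blk α γ x ∂hm = 1 := by
  have := (TP_factor α 1).indep (TP_factor γ 3) (by norm_num)
  rw [integral_factor _ (by norm_num), integral_factor _ (by norm_num), mul_one] at this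
  exact this

lemma tendsto_sq : Tendsto (fun K : ℕ => (K + 1) ^ 2) atTop atTop := by
  refine tendsto_atTop_mono (fun K => ?_) tendsto_id
  simp only [id]
  nlinarith

/-- integral of a product of block test functions against the limit measure -/
lemma integral_test {A G : ℕ → ℝ} {μ : Measure Tc} (hμ : IsLim (coef A G) μ)
    (h : ℕ → Tc → ℝ) (d : ℕ → ℕ) (hh : ∀ k, TP 1 (d k) (h k))
    (hd : ∀ k, d k + 5 ≤ 3 ^ (2 * k + 3)) (K : ℕ) :
    ∫ x, ∏ k ∈ Finset.range K, h k ((Lam k : ℤ) • x) ∂μ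
      = ∏ k ∈ Finset.range K, ∫ x, h k x * blk (A k) (G k) x ∂hm := by
  have hc : Continuous (fun x : Tc => ∏ k ∈ Finset.range K, h k ((Lam k : ℤ) • x)) :=
    continuous_finsetProd _ fun k _ => ((hh k).scale (Lam k)).continuous
  let f : C(Tc, ℝ) := ⟨_, hc⟩
  have t1 := (hμ.2 f).comp tendsto_sq
  refine tendsto_nhds_unique t1 (tendsto_const_nhds.congr' ?_)
  filter_upwards [eventually_ge_atTop K] with M hM
  obtain ⟨J, rfl⟩ := Nat.exists_eq_add_of_le hM
  let g : ℕ → Tc → ℝ := fun k x => (if k < K then h k x else 1) * blk (A k) (G k) x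
  have hg : ∀ k, TP 1 (d k + 4) (g k) := by
    intro k
    refine TP.mul ?_ (TP_blk _ _)
    by_cases hk : k < K
    · simpa [hk] using hh k
    · simpa [hk] using TP.const 1 (d k) 1
  have h2 := (block_indep g (fun k => d k + 4) hg (fun k => hd k) (K + J)).2
  have h3 : ∏ k ∈ Finset.range (K + J), ∫ x, g k x ∂hm
      = ∏ k ∈ Finset.range K, ∫ x, h k x * blk (A k) (G k) x ∂hm := by
    rw [Finset.prod_range_add, Finset.prod_eq_one (s := Finset.range J), mul_one]
    · refine Finset.prod_congr rfl fun k hk => ?_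
      rw [Finset.mem_range] at hk
      simp [g, hk]
    · intro i _
      simp [g, integral_blk]
  rw [← h3, ← h2]
  simp only [Function.comp]
  congr 1
  ext x
  rw [PP_pos]
  simp only [g, Finset.prod_mul_distrib, f, ContinuousMap.coe_mk]
  congr 1
  rw [Finset.prod_range_add, Finset.prod_eq_one (s := Finset.range J), mul_one]
  · refine Finset.prod_congr rfl fun k hk => ?_
    rw [Finset.mem_range] at hk
    simp [hk]
  · intro i _
    simp

end Pool.Agent.MP_b30265_an

end
end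

section

open MeasureTheory Filter Topology Real

noncomputable section

namespace Pool.Agent.MP_b30265_an

lemma ac_of_bound {μ ν : Measure Tc} [IsFiniteMeasure μ] [IsFiniteMeasure ν] (C : ℝ)
    (h : ∀ η : ℝ, 0 < η → ∀ f : C(Tc, ℝ), (∀ x, 0 ≤ f x) → (∀ x, f x ≤ 1) →
      ∫ x, f x ∂μ ≤ η * C + (1 / η) * ∫ x, f x ∂ν) : μ ≪ ν := by
  have hclosed : ∀ K : Set Tc, IsClosed K → ν K = 0 → μ K = 0 := by
    intro K hK hνK
    have hpos : ∀ n : ℕ, (0 : ℝ) < 1 / ((n : ℝ) + 1) := fun n => by positivity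
    have t1 := tendsto_integral_thickenedIndicator_of_isClosed μ hK hpos
      tendsto_one_div_add_atTop_nhds_zero_nat
    have t2 := tendsto_integral_thickenedIndicator_of_isClosed ν hK hpos
      tendsto_one_div_add_atTop_nhds_zero_nat
    have hν0 : ν.real K = 0 := by simp [Measure.real, hνK]
    rw [hν0] at t2
    have hle : ∀ η : ℝ, 0 < η → μ.real K ≤ η * C := by
      intro η hη
      have t3 := (t2.const_mul (1 / η)).const_add (η * C)
      simp only [mul_zero, add_zero] at t3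
      refine le_of_tendsto_of_tendsto' t1 t3 fun n => ?_
      let f : C(Tc, ℝ) := ⟨fun x => (thickenedIndicator (hpos n) K x : ℝ),
        NNReal.continuous_coe.comp (thickenedIndicator (hpos n) K).continuous⟩
      refine h η hη f (fun x => NNReal.coe_nonneg _) (fun x => ?_)
      change ((thickenedIndicator (hpos n) K x : NNReal) : ℝ) ≤ 1
      exact_mod_cast thickenedIndicator_le_one (hpos n) K x
    have h0 : μ.real K ≤ 0 := by
      have t4 : Tendsto (fun n : ℕ => (1 / ((n : ℝ) + 1)) * C) atTop (𝓝 (0 * C)) :=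
        tendsto_one_div_add_atTop_nhds_zero_nat.mul_const C
      rw [zero_mul] at t4
      exact ge_of_tendsto' t4 fun n => hle _ (hpos n)
    have h1 : μ.real K = 0 := le_antisymm h0 measureReal_nonneg
    rwa [measureReal_eq_zero_iff] at h1
  refine Measure.AbsolutelyContinuous.mk fun A hA hνA => ?_
  by_contra hne
  obtain ⟨K, hKA, hK, hpos⟩ := hA.exists_lt_isClosed_of_ne_top (measure_ne_top μ A)
    (pos_iff_ne_zero.2 hne)
  rw [hclosed K hK (measure_mono_null hKA hνA)] at hpos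
  exact lt_irrefl _ hpos

lemma singular_of_test {μ ν : Measure Tc} [IsProbabilityMeasure μ] [IsProbabilityMeasure ν]
    (h : ∀ η : ℝ, 0 < η → ∃ f : C(Tc, ℝ), (∀ x, 0 ≤ f x) ∧ (∀ x, f x ≤ 1) ∧
      1 - η ≤ ∫ x, f x ∂μ ∧ ∫ x, f x ∂ν ≤ η) : μ ⟂ₘ ν := by
  choose f f0 f1 fμ fν using fun j : ℕ => h ((1 / 2) ^ j) (by positivity)
  let A : ℕ → Set Tc := fun j => {x | 1 / 2 ≤ f j x}
  have hA : ∀ j, MeasurableSet (A j) := fun j =>
    (isClosed_le continuous_const (f j).continuous).measurableSet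
  have hνA : ∀ j, ν.real (A j) ≤ 2 * (1 / 2) ^ j := by
    intro j
    have := mul_meas_ge_le_integral_of_nonneg (μ := ν) (f := f j) (Eventually.of_forall (f0 j))
      (integrable_of_continuous _ (f j).continuous) (1 / 2)
    have h2 := fν j
    change 1 / 2 * ν.real (A j) ≤ _ at this
    linarith
  have hμA : ∀ j, μ.real (A j)ᶜ ≤ 2 * (1 / 2) ^ j := by
    intro j
    have := mul_meas_ge_le_integral_of_nonneg (μ := μ) (f := fun x => 1 - f j x)
      (Eventually.of_forall fun x => sub_nonneg.2 (f1 j x))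
      (integrable_of_continuous _ (continuous_const.fun_sub (f j).continuous)) (1 / 2)
    rw [integral_sub (integrable_const _) (integrable_of_continuous _ (f j).continuous)] at this
    have h2 := fμ j
    have h3 : μ.real (A j)ᶜ ≤ μ.real {x | 1 / 2 ≤ 1 - f j x} := by
      refine measureReal_mono fun x hx => ?_
      simp only [A, Set.mem_compl_iff, Set.mem_ofPred_eq, not_le] at hx ⊢
      linarith
    simp only [integral_const, probReal_univ, smul_eq_mul, mul_one] at this
    linarith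
  have hsum : ∀ (ρ : Measure Tc) [IsFiniteMeasure ρ] (B : ℕ → Set Tc),
      (∀ j, ρ.real (B j) ≤ 2 * (1 / 2) ^ j) → ρ (limsup B atTop) = 0 := by
    intro ρ _ B hB
    apply measure_limsup_atTop_eq_zero
    have hs : Summable (fun j : ℕ => (2 : ℝ) * (1 / 2) ^ j) :=
      summable_geometric_two.mul_left 2
    have h1 : ∑' j, ρ (B j) ≤ ∑' j, ENNReal.ofReal ((2 : ℝ) * (1 / 2) ^ j) := by
      refine ENNReal.tsum_le_tsum fun j => ?_
      rw [← ofReal_measureReal (measure_ne_top ρ (B j))]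
      exact ENNReal.ofReal_le_ofReal (hB j)
    rw [← ENNReal.ofReal_tsum_of_nonneg (fun j => by positivity) hs] at h1
    exact ne_top_of_le_ne_top ENNReal.ofReal_ne_top h1
  have hν0 := hsum ν A hνA
  have hμ0 := hsum μ (fun j => (A j)ᶜ) hμA
  refine ⟨(limsup A atTop)ᶜ, (MeasurableSet.measurableSet_limsup hA).compl, ?_, ?_⟩
  · refine measure_mono_null (fun x hx => ?_) hμ0
    rw [Set.mem_compl_iff, mem_limsup_iff_frequently_mem, not_frequently] at hx
    rw [mem_limsup_iff_frequently_mem]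
    exact hx.frequently
  · rwa [compl_compl]

end Pool.Agent.MP_b30265_an

end
end

section

open MeasureTheory Filter Topology Real

noncomputable section

namespace Pool.Agent.MP_b30265_an

lemma one_add_mul_pos {b c : ℝ} (hb : |b| < 1) (hc : |c| ≤ 1) : 0 < 1 + b * c := by
  have h1 : |b * c| < 1 := by
    rw [abs_mul]
    exact lt_of_le_of_lt (mul_le_of_le_one_right (abs_nonneg _) hc) hb
  linarith [neg_abs_le (b * c)]

lemma blk_pos {b g : ℝ} (hb : |b| < 1) (hg : |g| < 1) (y : Tc) : 0 < blk b g y :=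
  mul_pos (one_add_mul_pos hb (abs_cs_le _ _)) (one_add_mul_pos hg (abs_cs_le _ _))

lemma le_of_sq_le_mul {x T y η : ℝ} (hT : 0 ≤ T) (hy : 0 ≤ y) (hη : 0 < η) (h : x ^ 2 ≤ T * y) :
    x ≤ η * T + (1 / η) * y := by
  have h0 : 0 ≤ η * T + (1 / η) * y := by positivity
  refine le_trans (le_abs_self x) (abs_le_of_sq_le_sq' ?_ h0 |> fun h => abs_le.2 h)
  have h1 : (η * T) * ((1 / η) * y) = T * y := by field_simp
  have h2 : 0 ≤ T * y := mul_nonneg hT hy
  nlinarith [sq_nonneg (η * T), sq_nonneg ((1 / η) * y)]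

lemma ac_blocks {A B G e : ℕ → ℝ} (hB : ∀ k, |B k| < 1)
    (hG : ∀ k, |G k| < 1) (he0 : ∀ k, 0 ≤ e k) (he : Summable e)
    (hkey : ∀ k (y : Tc), ((A k - B k) * cs 1 y) ^ 2 * (1 + G k * cs 3 y)
      ≤ e k * (1 + B k * cs 1 y))
    {μ ν : Measure Tc} (hμ : IsLim (coef A G) μ) (hν : IsLim (coef B G) ν) : μ ≪ ν := by
  have := hμ.1
  have := hν.1
  let T : ℕ → Tc → ℝ := fun k y => blk (2 * A k - B k) (G k) y + e k
  have hT : ∀ k, TP 1 4 (T k) := fun k => (TP_blk _ _).add (TP.const _ _ _)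
  have hTint : ∀ k, ∫ y, T k y ∂hm = 1 + e k := by
    intro k
    simp only [T]
    rw [integral_add (integrable_of_continuous _ (TP_blk _ _).continuous) (integrable_const _),
      integral_blk]
    simp
  have hsq : ∀ k y, blk (A k) (G k) y ^ 2 ≤ T k y * blk (B k) (G k) y := by
    intro k y
    have h1 := hkey k y
    have hw := one_add_mul_pos (hG k) (abs_cs_le 3 y)
    have h2 := mul_le_mul_of_nonneg_right h1 hw.le
    simp only [T, blk]
    nlinarith
  have hT0 : ∀ k y, 0 ≤ T k y := by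
    intro k y
    have h1 := hsq k y
    have h2 := blk_pos (hB k) (hG k) y
    by_contra hneg
    push Not at hneg
    have := mul_neg_of_neg_of_pos hneg h2
    nlinarith [sq_nonneg (blk (A k) (G k) y)]
  refine ac_of_bound (Real.exp (∑' k, e k)) fun η hη f f0 f1 => ?_
  have t1 := (hμ.2 f).comp tendsto_sq
  have t2 := (((hν.2 f).comp tendsto_sq).const_mul (1 / η)).const_add
    (η * Real.exp (∑' k, e k))
  refine le_of_tendsto_of_tendsto' t1 t2 fun K => ?_
  simp only [Function.comp]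
  obtain ⟨⟨E, -, hE⟩, hI⟩ := block_indep T (fun _ => 4) hT (fun k => by
    have : 3 ^ 3 ≤ 3 ^ (2 * k + 3) := Nat.pow_le_pow_right (by norm_num) (by omega)
    omega) K
  have hexp : ∏ k ∈ Finset.range K, ∫ x, T k x ∂hm ≤ Real.exp (∑' k, e k) := by
    simp only [hTint]
    refine (Real.prod_one_add_le_exp_sum _ he0).trans ?_
    exact Real.exp_le_exp.2 (he.sum_le_tsum _ fun k _ => he0 k)
  have cA := (TP_PP (coef A G) ((K + 1) ^ 2)).continuous
  have cB := (TP_PP (coef B G) ((K + 1) ^ 2)).continuous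
  calc ∫ x, f x * PP (coef A G) ((K + 1) ^ 2) x ∂hm
      ≤ ∫ x, (η * ∏ k ∈ Finset.range K, T k ((Lam k : ℤ) • x)
          + (1 / η) * (f x * PP (coef B G) ((K + 1) ^ 2) x)) ∂hm := by
        refine integral_mono (integrable_of_continuous _ (f.continuous.fun_mul cA))
          (integrable_of_continuous _ ((continuous_const.fun_mul hE.continuous).fun_add
            (continuous_const.fun_mul (f.continuous.fun_mul cB)))) fun x => ?_
        simp only
        rw [PP_pos, PP_pos]
        have p1 : 0 ≤ ∏ k ∈ Finset.range K, T k ((Lam k : ℤ) • x) :=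
          Finset.prod_nonneg fun k _ => hT0 _ _
        have p2 : 0 ≤ ∏ k ∈ Finset.range K, blk (B k) (G k) ((Lam k : ℤ) • x) :=
          Finset.prod_nonneg fun k _ => (blk_pos (hB k) (hG k) _).le
        have p3 : (∏ k ∈ Finset.range K, blk (A k) (G k) ((Lam k : ℤ) • x)) ^ 2
            ≤ (∏ k ∈ Finset.range K, T k ((Lam k : ℤ) • x))
              * ∏ k ∈ Finset.range K, blk (B k) (G k) ((Lam k : ℤ) • x) := by
          rw [← Finset.prod_pow, ← Finset.prod_mul_distrib]
          exact Finset.prod_le_prod (fun k _ => sq_nonneg _) fun k _ => hsq _ _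
        have p4 := mul_le_mul_of_nonneg_left (le_of_sq_le_mul p1 p2 hη p3) (f0 x)
        have p5 : f x * (η * ∏ k ∈ Finset.range K, T k ((Lam k : ℤ) • x))
            ≤ η * ∏ k ∈ Finset.range K, T k ((Lam k : ℤ) • x) :=
          mul_le_of_le_one_left (mul_nonneg hη.le p1) (f1 x)
        nlinarith
    _ = η * ∏ k ∈ Finset.range K, ∫ x, T k x ∂hm
          + (1 / η) * ∫ x, f x * PP (coef B G) ((K + 1) ^ 2) x ∂hm := by
        rw [integral_add (integrable_of_continuous _ (continuous_const.fun_mul hE.continuous))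
          (integrable_of_continuous _ (continuous_const.fun_mul (f.continuous.fun_mul cB))),
          integral_const_mul, integral_const_mul, hI]
    _ ≤ _ := by
        have := mul_le_mul_of_nonneg_left hexp hη.le
        linarith

end Pool.Agent.MP_b30265_an

end
end

section

open MeasureTheory Filter Topology Real

noncomputable section

namespace Pool.Agent.MP_b30265_an

lemma integral_hm (g : Tc → ℝ) :
    ∫ x, g x ∂hm = (1 / (2 * π)) * ∫ x in (0 : ℝ)..(2 * π), g (x : Tc) := by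
  rw [AddCircle.integral_haarAddCircle, ← AddCircle.intervalIntegral_preimage (2 * π) 0 g]
  simp

def sb (y : Tc) : ℝ := (1 - cs 1 y) / 2

def II (m : ℕ) : ℝ := ∫ y, sb y ^ m ∂hm

lemma TP_sb : TP 1 1 sb := by
  have := TP.smul (1 / 2) (TP_factor (-1) 1)
  convert this using 2 with y
  unfold sb
  ring

lemma sb_nonneg (y : Tc) : 0 ≤ sb y := by
  have := abs_le.1 (abs_cs_le 1 y)
  unfold sb
  linarith [this.2]

lemma sb_le_one (y : Tc) : sb y ≤ 1 := by
  have := abs_le.1 (abs_cs_le 1 y)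
  unfold sb
  linarith [this.1]

lemma II_eq (m : ℕ) : II m = ∏ i ∈ Finset.range m, (2 * (i : ℝ) + 1) / (2 * i + 2) := by
  unfold II
  rw [integral_hm]
  have h1 : (fun x : ℝ => sb (x : Tc) ^ m) = fun x => (fun t => Real.sin t ^ (2 * m)) (x / 2) := by
    ext x
    simp only [sb, cs_coe, pow_mul]
    congr 1
    rw [Real.sin_sq_eq_half_sub]
    have : 2 * (x / 2) = ((1 : ℕ) : ℝ) * x := by push_cast; ring
    rw [this]
    ring
  rw [h1, intervalIntegral.integral_comp_div (f := fun t => Real.sin t ^ (2 * m)) two_ne_zero]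
  have h2 : 2 * π / 2 = π := by ring
  rw [zero_div, h2, integral_sin_pow_even, smul_eq_mul]
  field_simp

lemma II_succ (m : ℕ) : II (m + 1) = II m * ((2 * (m : ℝ) + 1) / (2 * m + 2)) := by
  rw [II_eq, II_eq, Finset.prod_range_succ]

lemma II_pos (m : ℕ) : 0 < II m := by
  rw [II_eq]
  exact Finset.prod_pos fun i _ => by positivity

lemma II_upper (m : ℕ) : II m ^ 2 * (2 * m + 1) ≤ 1 := by
  induction m with
  | zero => simp [II_eq]
  | succ m ih =>
    rw [II_succ]
    refine le_trans ?_ ih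
    rw [mul_pow, mul_assoc]
    refine mul_le_mul_of_nonneg_left ?_ (sq_nonneg _)
    have hm : (0 : ℝ) ≤ m := Nat.cast_nonneg m
    rw [div_pow, div_mul_eq_mul_div, div_le_iff₀ (by positivity)]
    push_cast
    nlinarith

lemma II_lower (m : ℕ) : 1 ≤ II (m + 1) ^ 2 * (4 * (m + 1)) := by
  induction m with
  | zero => simp [II_eq]; norm_num
  | succ m ih =>
    rw [II_succ]
    refine le_trans ih ?_
    rw [mul_pow, mul_assoc]
    refine mul_le_mul_of_nonneg_left ?_ (sq_nonneg _)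
    have hm : (0 : ℝ) ≤ m := Nat.cast_nonneg m
    rw [div_pow, div_mul_eq_mul_div, le_div_iff₀ (by positivity)]
    push_cast
    nlinarith

lemma II_diff (m : ℕ) : II m - II (m + 1) = II m / (2 * m + 2) := by
  rw [II_succ]
  field_simp
  ring

lemma cont_sb_pow (m : ℕ) : Continuous fun y => sb y ^ m := (TP_sb.pow m).continuous

lemma integral_lin (m : ℕ) (α β : ℝ) :
    ∫ y, (α * sb y ^ m + β * (sb y ^ m - sb y ^ (m + 1))) ∂hm
      = α * II m + β * (II m / (2 * m + 2)) := by
  rw [integral_add (integrable_of_continuous _ (continuous_const.fun_mul (cont_sb_pow m)))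
    (integrable_of_continuous _ (continuous_const.fun_mul
      ((cont_sb_pow m).fun_sub (cont_sb_pow (m + 1))))),
    integral_const_mul, integral_const_mul,
    integral_sub (integrable_of_continuous _ (cont_sb_pow m))
      (integrable_of_continuous _ (cont_sb_pow (m + 1))), ← II_diff]
  rfl

lemma p_upper (m : ℕ) {ε g : ℝ} (h0 : 0 ≤ ε) (h1 : ε ≤ 1) (hg : |g| ≤ 1) :
    ∫ y, sb y ^ m * blk (1 - ε) g y ∂hm ≤ 2 * ε * II m + 4 * (II m / (2 * m + 2)) := by
  rw [← integral_lin]
  refine integral_mono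
    (integrable_of_continuous _ ((cont_sb_pow m).fun_mul (TP_blk _ _).continuous))
    (integrable_of_continuous _ ((continuous_const.fun_mul (cont_sb_pow m)).fun_add
      (continuous_const.fun_mul ((cont_sb_pow m).fun_sub (cont_sb_pow (m + 1)))))) fun y => ?_
  simp only
  have hs : 0 ≤ sb y ^ m := pow_nonneg (sb_nonneg y) m
  have hc := abs_le.1 (abs_cs_le 1 y)
  have hw : 1 + g * cs 3 y ≤ 2 := by
    have : |g * cs 3 y| ≤ 1 := by
      rw [abs_mul]; exact mul_le_one₀ hg (abs_nonneg _) (abs_cs_le _ _)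
    linarith [le_abs_self (g * cs 3 y)]
  have hu0 : 0 ≤ 1 + (1 - ε) * cs 1 y := by nlinarith [hc.1, hc.2]
  have hu1 : 1 + (1 - ε) * cs 1 y ≤ ε + 2 * (1 - sb y) := by
    unfold sb
    nlinarith [hc.1, hc.2]
  have hb : blk (1 - ε) g y ≤ 2 * ε + 4 * (1 - sb y) := by
    unfold blk
    nlinarith [mul_le_mul_of_nonneg_left hw hu0]
  calc sb y ^ m * blk (1 - ε) g y ≤ sb y ^ m * (2 * ε + 4 * (1 - sb y)) :=
        mul_le_mul_of_nonneg_left hb hs
    _ = _ := by ring

lemma p_lower (m : ℕ) {δ ε : ℝ} (h0 : 0 ≤ δ) (h1 : δ ≤ 1) (e0 : 0 ≤ ε) (e1 : ε ≤ 1 / 2) :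
    δ * II m + (-9 * δ) * (II m / (2 * m + 2))
      ≤ ∫ y, sb y ^ m * blk (1 - δ) (-(1 - ε)) y ∂hm := by
  rw [← integral_lin]
  refine integral_mono
    (integrable_of_continuous _ ((continuous_const.fun_mul (cont_sb_pow m)).fun_add
      (continuous_const.fun_mul ((cont_sb_pow m).fun_sub (cont_sb_pow (m + 1))))))
    (integrable_of_continuous _ ((cont_sb_pow m).fun_mul (TP_blk _ _).continuous))
     fun y => ?_
  simp only
  have hs : 0 ≤ sb y ^ m := pow_nonneg (sb_nonneg y) m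
  have hc := abs_le.1 (abs_cs_le 1 y)
  have hc3 := abs_le.1 (abs_cs_le 3 y)
  have hv : δ ≤ 1 + (1 - δ) * cs 1 y := by nlinarith [hc.1, hc.2]
  have hw0 : 0 ≤ 1 + -(1 - ε) * cs 3 y := by nlinarith [hc3.1, hc3.2]
  have hw1 : (1 - cs 3 y) / 2 ≤ 1 + -(1 - ε) * cs 3 y := by nlinarith [hc3.1, hc3.2]
  have hw2 : 1 - 9 * (1 - sb y) ≤ (1 - cs 3 y) / 2 := by
    rw [cs_three]
    unfold sb
    nlinarith [hc.1, hc.2, mul_nonneg (sq_nonneg (1 + cs 1 y)) (show 0 ≤ 2 - cs 1 y by linarith [hc.2])]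
  have hb : δ * (1 - 9 * (1 - sb y)) ≤ blk (1 - δ) (-(1 - ε)) y := by
    unfold blk
    calc δ * (1 - 9 * (1 - sb y)) ≤ δ * (1 + -(1 - ε) * cs 3 y) :=
          mul_le_mul_of_nonneg_left (hw2.trans hw1) h0
      _ ≤ _ := mul_le_mul_of_nonneg_right hv hw0
  calc _ = sb y ^ m * (δ * (1 - 9 * (1 - sb y))) := by ring
    _ ≤ _ := mul_le_mul_of_nonneg_left hb hs

lemma one_sub_sum_le_prod' (q : ℕ → ℝ) (h0 : ∀ k, 0 ≤ q k) (h1 : ∀ k, q k ≤ 1) (K : ℕ) :
    1 - ∑ k ∈ Finset.range K, q k ≤ ∏ k ∈ Finset.range K, (1 - q k) := by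
  induction K with
  | zero => simp
  | succ K ih =>
    rw [Finset.sum_range_succ, Finset.prod_range_succ]
    have hs : 0 ≤ ∑ k ∈ Finset.range K, q k := Finset.sum_nonneg fun k _ => h0 k
    have := mul_le_mul_of_nonneg_right ih (sub_nonneg.2 (h1 K))
    nlinarith [mul_nonneg hs (h0 K)]

lemma prod_one_sub_le_exp' (q : ℕ → ℝ) (h1 : ∀ k, q k ≤ 1) (K : ℕ) :
    ∏ k ∈ Finset.range K, (1 - q k) ≤ Real.exp (-∑ k ∈ Finset.range K, q k) := by
  rw [← Finset.sum_neg_distrib, Real.exp_sum]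
  refine Finset.prod_le_prod (fun k _ => sub_nonneg.2 (h1 k)) fun k _ => ?_
  linarith [Real.add_one_le_exp (-q k)]

lemma sing_blocks {A B G : ℕ → ℝ} (hA : ∀ k, |A k| < 1) (hB : ∀ k, |B k| < 1)
    (hG : ∀ k, |G k| < 1) (m : ℕ → ℕ) (hm5 : ∀ k, m k + 5 ≤ 3 ^ (2 * k + 3))
    (hp : Summable fun k => ∫ y, sb y ^ m k * blk (A k) (G k) y ∂hm)
    (hq : Tendsto (fun K => ∑ k ∈ Finset.range K, ∫ y, sb y ^ m k * blk (B k) (G k) y ∂hm)
      atTop atTop)
    {μ ν : Measure Tc} (hμ : IsLim (coef A G) μ) (hν : IsLim (coef B G) ν) : μ ⟂ₘ ν := by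
  have := hμ.1
  have := hν.1
  have hint0 : ∀ (a g : ℝ) (j : ℕ), |a| < 1 → |g| < 1 → 0 ≤ ∫ y, sb y ^ j * blk a g y ∂hm :=
    fun a g j ha hg => integral_nonneg fun y =>
      mul_nonneg (pow_nonneg (sb_nonneg y) _) (blk_pos ha hg y).le
  have hint1 : ∀ (a g : ℝ) (j : ℕ), |a| < 1 → |g| < 1 → ∫ y, sb y ^ j * blk a g y ∂hm ≤ 1 := by
    intro a g j ha hg
    rw [← integral_blk a g]
    refine integral_mono
      (integrable_of_continuous _ ((cont_sb_pow j).fun_mul (TP_blk _ _).continuous))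
      (integrable_of_continuous _ (TP_blk _ _).continuous) fun y => ?_
    exact mul_le_of_le_one_left (blk_pos ha hg y).le (pow_le_one₀ (sb_nonneg y) (sb_le_one y))
  have hθint : ∀ (θ a g : ℝ) (j : ℕ), ∫ y, (1 - θ * sb y ^ j) * blk a g y ∂hm
      = 1 - θ * ∫ y, sb y ^ j * blk a g y ∂hm := by
    intro θ a g j
    have : (fun y => (1 - θ * sb y ^ j) * blk a g y)
        = fun y => blk a g y - θ * (sb y ^ j * blk a g y) := by
      ext y; ring
    rw [this, integral_sub (integrable_of_continuous _ (TP_blk _ _).continuous)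
      (integrable_of_continuous _ (continuous_const.fun_mul
        ((cont_sb_pow j).fun_mul (TP_blk _ _).continuous))), integral_const_mul, integral_blk]
  refine singular_of_test fun η hη => ?_
  set S := ∑' k, ∫ y, sb y ^ m k * blk (A k) (G k) y ∂hm with hS
  have hS0 : 0 ≤ S := tsum_nonneg fun k => hint0 _ _ _ (hA k) (hG k)
  set θ := η / (η + S) with hθ
  have hθ0 : 0 < θ := by positivity
  have hθ1 : θ ≤ 1 := by rw [hθ, div_le_one (by positivity)]; linarith
  have hθS : θ * S ≤ η := by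
    rw [hθ, div_mul_eq_mul_div, div_le_iff₀ (by positivity)]
    nlinarith
  have t1 : Tendsto (fun K => Real.exp (-(θ * ∑ k ∈ Finset.range K,
      ∫ y, sb y ^ m k * blk (B k) (G k) y ∂hm))) atTop (𝓝 0) :=
    Real.tendsto_exp_neg_atTop_nhds_zero.comp (hq.const_mul_atTop hθ0)
  obtain ⟨K, hK⟩ := (t1.eventually (ge_mem_nhds hη)).exists
  let h : ℕ → Tc → ℝ := fun k y => 1 - θ * sb y ^ m k
  have hh : ∀ k, TP 1 (m k) (h k) := fun k => by
    have := (TP.const 1 (m k * 1) 1).sub ((TP_sb.pow (m k)).smul θ)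
    simpa using this
  have h0 : ∀ k y, 0 ≤ h k y := fun k y => by
    have := mul_le_one₀ hθ1 (pow_nonneg (sb_nonneg y) (m k))
      (pow_le_one₀ (sb_nonneg y) (sb_le_one y))
    simp only [h]
    linarith
  have h1 : ∀ k y, h k y ≤ 1 := fun k y => by
    have := mul_nonneg hθ0.le (pow_nonneg (sb_nonneg y) (m k))
    simp only [h]
    linarith
  have hc : Continuous (fun x : Tc => ∏ k ∈ Finset.range K, h k ((Lam k : ℤ) • x)) :=
    continuous_finsetProd _ fun k _ => ((hh k).scale (Lam k)).continuous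
  refine ⟨⟨_, hc⟩, fun x => ?_, fun x => ?_, ?_, ?_⟩
  · simp only [ContinuousMap.coe_mk]
    exact Finset.prod_nonneg fun k _ => h0 _ _
  · simp only [ContinuousMap.coe_mk]
    exact Finset.prod_le_one (fun k _ => h0 _ _) fun k _ => h1 _ _
  · simp only [ContinuousMap.coe_mk]
    rw [integral_test hμ h m hh hm5 K]
    simp only [h, hθint]
    refine le_trans ?_ (one_sub_sum_le_prod' _
      (fun k => mul_nonneg hθ0.le (hint0 _ _ _ (hA k) (hG k)))
      (fun k => mul_le_one₀ hθ1 (hint0 _ _ _ (hA k) (hG k)) (hint1 _ _ _ (hA k) (hG k))) K)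
    rw [← Finset.mul_sum]
    have := mul_le_mul_of_nonneg_left
      (hp.sum_le_tsum (Finset.range K) fun k _ => hint0 _ _ _ (hA k) (hG k)) hθ0.le
    linarith
  · simp only [ContinuousMap.coe_mk]
    rw [integral_test hν h m hh hm5 K]
    simp only [h, hθint]
    refine le_trans (prod_one_sub_le_exp' _
      (fun k => mul_le_one₀ hθ1 (hint0 _ _ _ (hB k) (hG k)) (hint1 _ _ _ (hB k) (hG k))) K) ?_
    rw [← Finset.mul_sum]
    exact hK

end Pool.Agent.MP_b30265_an

end
end

section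

open MeasureTheory Filter Topology Real

noncomputable section

namespace Pool.Agent.MP_b30265_an

def zz (k : ℕ) : ℝ := ((k : ℝ) + 1) ^ (1 / 5 : ℝ)

def dl (k : ℕ) : ℝ := 1 / (2 * zz k ^ 3)

def ep (k : ℕ) : ℝ := dl k ^ 2

def mm (k : ℕ) : ℕ := ⌈zz k ^ 4⌉₊ + 8

lemma zz_ge (k : ℕ) : 1 ≤ zz k :=
  Real.one_le_rpow (by linarith [(Nat.cast_nonneg k : (0 : ℝ) ≤ k)]) (by norm_num)

lemma zz_pow_five (k : ℕ) : zz k ^ 5 = (k : ℝ) + 1 := by
  unfold zz
  rw [← Real.rpow_natCast, ← Real.rpow_mul (by positivity)]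
  norm_num

lemma dl_pos (k : ℕ) : 0 < dl k := by
  have := zz_ge k
  unfold dl
  positivity

lemma dl_le (k : ℕ) : dl k ≤ 1 / 2 := by
  have h := one_le_pow₀ (n := 3) (zz_ge k)
  unfold dl
  exact one_div_le_one_div_of_le (by norm_num) (by linarith)

lemma ep_pos (k : ℕ) : 0 < ep k := pow_pos (dl_pos k) 2

lemma ep_le (k : ℕ) : ep k ≤ dl k / 2 := by
  unfold ep
  nlinarith [dl_pos k, dl_le k]

lemma summable_ep : Summable ep := by
  have h1 : Summable fun n : ℕ => 1 / (n : ℝ) ^ (6 / 5 : ℝ) :=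
    Real.summable_one_div_nat_rpow.2 (by norm_num)
  have h2 := ((summable_nat_add_iff 1).2 h1).mul_left (1 / 4)
  refine h2.congr fun k => ?_
  have h3 : zz k ^ 6 = ((k : ℝ) + 1) ^ (6 / 5 : ℝ) := by
    unfold zz
    rw [← Real.rpow_natCast, ← Real.rpow_mul (by positivity)]
    norm_num
  have h4 : 0 < zz k := lt_of_lt_of_le one_pos (zz_ge k)
  unfold ep dl
  push_cast
  rw [← h3]
  field_simp
  norm_num

lemma mm_ge (k : ℕ) : zz k ^ 4 + 8 ≤ (mm k : ℝ) := by
  unfold mm
  push_cast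
  linarith [Nat.le_ceil (zz k ^ 4)]

lemma mm_le (k : ℕ) : (mm k : ℝ) ≤ zz k ^ 4 + 9 := by
  unfold mm
  push_cast
  have h4 : 0 < zz k := lt_of_lt_of_le one_pos (zz_ge k)
  linarith [Nat.ceil_lt_add_one (show 0 ≤ zz k ^ 4 by positivity)]

lemma mm_deg (k : ℕ) : mm k + 5 ≤ 3 ^ (2 * k + 3) := by
  have h1 : zz k ^ 4 ≤ zz k ^ 5 := pow_le_pow_right₀ (zz_ge k) (by norm_num)
  rw [zz_pow_five] at h1
  have h2 : (mm k : ℝ) ≤ ((k + 10 : ℕ) : ℝ) := by
    push_cast
    linarith [mm_le k]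
  have h3 : mm k ≤ k + 10 := by exact_mod_cast h2
  have h4 : k + 15 ≤ 3 ^ (2 * k + 3) := by
    clear h1 h2 h3
    induction k with
    | zero => norm_num
    | succ k ih =>
      have : 3 ^ (2 * (k + 1) + 3) = 9 * 3 ^ (2 * k + 3) := by ring
      omega
  omega

lemma II_mm_le (k : ℕ) : II (mm k) * zz k ^ 2 ≤ 1 := by
  have h1 := II_upper (mm k)
  have h2 := mm_ge k
  have h3 : (II (mm k) * zz k ^ 2) ^ 2 ≤ 1 ^ 2 := by
    have h5 : zz k ^ 4 ≤ 2 * (mm k : ℝ) + 1 := by
      have : (0 : ℝ) ≤ mm k := Nat.cast_nonneg _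
      linarith
    have := mul_le_mul_of_nonneg_left h5 (sq_nonneg (II (mm k)))
    nlinarith
  exact (abs_le_of_sq_le_sq' h3 zero_le_one).2

lemma II_mm_ge (k : ℕ) : 1 ≤ 8 * (II (mm k) * zz k ^ 2) := by
  have h1 := II_lower (⌈zz k ^ 4⌉₊ + 7)
  have e : ⌈zz k ^ 4⌉₊ + 7 + 1 = mm k := rfl
  have e2 : ((⌈zz k ^ 4⌉₊ + 7 : ℕ) : ℝ) + 1 = (mm k : ℝ) := by rw [← e]; push_cast; ring
  rw [e, e2] at h1
  have h2 := mm_le k
  have h4 : 1 ≤ zz k ^ 4 := one_le_pow₀ (zz_ge k)
  have h0 : 0 < zz k := lt_of_lt_of_le one_pos (zz_ge k)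
  have h3 : (1 : ℝ) ^ 2 ≤ (8 * (II (mm k) * zz k ^ 2)) ^ 2 := by
    have h5 : 4 * (mm k : ℝ) ≤ 64 * zz k ^ 4 := by linarith
    have := mul_le_mul_of_nonneg_left h5 (sq_nonneg (II (mm k)))
    nlinarith
  have := II_pos (mm k)
  exact (abs_le_of_sq_le_sq' h3 (by positivity)).2

def cA (k : ℕ) : ℝ := 1 - ep k

def cB (k : ℕ) : ℝ := 1 - dl k

lemma abs_cA (k : ℕ) : |cA k| < 1 := by
  unfold cA
  rw [abs_lt]
  constructor <;> linarith [ep_pos k, ep_le k, dl_le k]

lemma abs_cB (k : ℕ) : |cB k| < 1 := by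
  unfold cB
  rw [abs_lt]
  constructor <;> linarith [dl_pos k, dl_le k]

lemma abs_neg_cA (k : ℕ) : |-cA k| < 1 := by rw [abs_neg]; exact abs_cA k

lemma kill_A (k : ℕ) (y : Tc) : 1 + cA k * cs 3 y ≤ 9 * (1 + cA k * cs 1 y) := by
  have hc := abs_le.1 (abs_cs_le 1 y)
  have h1 : 1 + cs 3 y ≤ 9 * (1 + cs 1 y) := by
    rw [cs_three]
    have : 0 ≤ (1 + cs 1 y) * ((2 - cs 1 y) * (1 + cs 1 y)) :=
      mul_nonneg (by linarith [hc.1]) (mul_nonneg (by linarith [hc.2]) (by linarith [hc.1]))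
    nlinarith
  have h2 : 0 ≤ 1 - ep k := by linarith [ep_le k, dl_le k]
  unfold cA
  nlinarith [mul_le_mul_of_nonneg_left h1 h2, ep_pos k]

lemma A_le_B (k : ℕ) (y : Tc) : 1 + cA k * cs 1 y ≤ 2 * (1 + cB k * cs 1 y) := by
  have hc := abs_le.1 (abs_cs_le 1 y)
  unfold cA cB
  nlinarith [ep_pos k, ep_le k, dl_le k, dl_pos k, hc.1, hc.2,
    mul_nonneg (show 0 ≤ 1 + cs 1 y by linarith [hc.1]) (ep_pos k).le,
    mul_nonneg (show 0 ≤ 1 + cs 1 y by linarith [hc.1])
      (show 0 ≤ 1 / 2 - dl k by linarith [dl_le k])]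

lemma diff_sq (k : ℕ) (y : Tc) : ((cA k - cB k) * cs 1 y) ^ 2 ≤ ep k := by
  have hc := abs_le.1 (abs_cs_le 1 y)
  have h1 : cs 1 y ^ 2 ≤ 1 := by nlinarith [hc.1, hc.2]
  have h2 : (cA k - cB k) ^ 2 ≤ ep k := by
    have : cA k - cB k = dl k - ep k := by unfold cA cB; ring
    rw [this]
    have h3 : ep k = dl k ^ 2 := rfl
    nlinarith [ep_pos k, ep_le k, dl_pos k]
  rw [mul_pow]
  nlinarith [sq_nonneg (cA k - cB k), sq_nonneg (cs 1 y)]

lemma ac_AB {μ ν : Measure Tc} (hμ : IsLim (coef cA cA) μ) (hν : IsLim (coef cB cA) ν) :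
    μ ≪ ν := by
  refine ac_blocks (e := fun k => 18 * ep k) abs_cB abs_cA
    (fun k => by linarith [ep_pos k]) (summable_ep.mul_left 18) (fun k y => ?_) hμ hν
  have hw := (one_add_mul_pos (abs_cA k) (abs_cs_le 3 y)).le
  have h1 := mul_le_mul_of_nonneg_right (diff_sq k y) hw
  have h2 : 1 + cA k * cs 3 y ≤ 18 * (1 + cB k * cs 1 y) := by
    linarith [kill_A k y, A_le_B k y]
  have h3 := mul_le_mul_of_nonneg_left h2 (ep_pos k).le
  nlinarith

lemma ac_BA {μ ν : Measure Tc} (hμ : IsLim (coef cA cA) μ) (hν : IsLim (coef cB cA) ν) :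
    ν ≪ μ := by
  refine ac_blocks (e := fun k => 9 * ep k) abs_cA abs_cA
    (fun k => by linarith [ep_pos k]) (summable_ep.mul_left 9) (fun k y => ?_) hν hμ
  have hw := (one_add_mul_pos (abs_cA k) (abs_cs_le 3 y)).le
  have h0 : ((cB k - cA k) * cs 1 y) ^ 2 = ((cA k - cB k) * cs 1 y) ^ 2 := by ring
  rw [h0]
  have h1 := mul_le_mul_of_nonneg_right (diff_sq k y) hw
  have h3 := mul_le_mul_of_nonneg_left (kill_A k y) (ep_pos k).le
  nlinarith

lemma sing_AB {μ ν : Measure Tc} (hμ : IsLim (coef cA fun k => -cA k) μ)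
    (hν : IsLim (coef cB fun k => -cA k) ν) : μ ⟂ₘ ν := by
  refine sing_blocks abs_cA abs_cB abs_neg_cA mm mm_deg ?_ ?_ hμ hν
  · refine Summable.of_nonneg_of_le (fun k => integral_nonneg fun y =>
      mul_nonneg (pow_nonneg (sb_nonneg y) _) (blk_pos (abs_cA k) (abs_neg_cA k) y).le)
      (fun k => ?_) (summable_ep.mul_left 10)
    have h1 := p_upper (mm k) (ε := ep k) (g := -cA k) (ep_pos k).le
      (by linarith [ep_le k, dl_le k]) (abs_neg_cA k).le
    refine le_trans h1 ?_
    have hz : 0 < zz k := lt_of_lt_of_le one_pos (zz_ge k)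
    have hI := II_mm_le k
    have hI0 := II_pos (mm k)
    have hz2 : 1 ≤ zz k ^ 2 := one_le_pow₀ (zz_ge k)
    have hI1 : II (mm k) ≤ 1 := by nlinarith
    have h2 : II (mm k) / (2 * (mm k : ℝ) + 2) ≤ 2 * ep k := by
      have e : 2 * ep k = (1 / zz k ^ 2) / (2 * zz k ^ 4) := by
        unfold ep dl
        field_simp
      rw [e]
      refine div_le_div₀ (by positivity) ?_ (by positivity) (by linarith [mm_ge k])
      rw [le_div_iff₀ (by positivity)]
      exact hI
    nlinarith [ep_pos k]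
  · have t1 : Tendsto (fun K => (1 / 32 : ℝ) * ∑ k ∈ Finset.range K, (1 / ((k : ℝ) + 1)))
        atTop atTop :=
      Real.tendsto_sum_range_one_div_nat_succ_atTop.const_mul_atTop (by norm_num)
    refine tendsto_atTop_mono (fun K => ?_) t1
    rw [Finset.mul_sum]
    refine Finset.sum_le_sum fun k _ => ?_
    have h1 := p_lower (mm k) (δ := dl k) (ε := ep k) (dl_pos k).le (by linarith [dl_le k])
      (ep_pos k).le (by linarith [ep_le k, dl_le k])
    refine le_trans ?_ h1
    have hz : 0 < zz k := lt_of_lt_of_le one_pos (zz_ge k)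
    have hI := II_mm_ge k
    have hI0 := II_pos (mm k)
    have hz4 : 1 ≤ zz k ^ 4 := one_le_pow₀ (zz_ge k)
    have h2 : II (mm k) / (2 * (mm k : ℝ) + 2) ≤ II (mm k) / 18 :=
      div_le_div_of_nonneg_left hI0.le (by norm_num) (by linarith [mm_ge k])
    have h3 : (1 / 32 : ℝ) * (1 / ((k : ℝ) + 1)) ≤ dl k * II (mm k) / 2 := by
      rw [← zz_pow_five]
      have e : dl k * II (mm k) / 2
          = (1 / 32 : ℝ) * (1 / zz k ^ 5) * (8 * (II (mm k) * zz k ^ 2)) := by
        unfold dl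
        field_simp
        norm_num
      rw [e]
      exact le_mul_of_one_le_right (by positivity) hI
    have h4 := mul_le_mul_of_nonneg_left h2 (dl_pos k).le
    nlinarith

/-- the phases: `π` at the indices `j ^ 2 + 1`, and `0` elsewhere -/
def ph (n : ℕ) : ℝ := if n = (Nat.sqrt n) ^ 2 + 1 then π else 0

lemma abs_coef_lt {A G : ℕ → ℝ} (hA : ∀ k, |A k| < 1) (hG : ∀ k, |G k| < 1) (n : ℕ) :
    |coef A G n| < 1 := by
  unfold coef
  split_ifs
  · simp
  · exact hA _
  · exact hG _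
  · simp

lemma coef_nonneg {A G : ℕ → ℝ} (hA : ∀ k, 0 ≤ A k) (hG : ∀ k, 0 ≤ G k) (n : ℕ) :
    0 ≤ coef A G n := by
  unfold coef
  split_ifs
  · simp
  · exact hA _
  · exact hG _
  · simp

lemma coef_phase (A G : ℕ → ℝ) (n : ℕ) (t : ℝ) :
    coef A G n * Real.cos (t + ph n) = coef A (fun k => -G k) n * Real.cos t := by
  unfold coef ph
  split_ifs with h1 h2 h3 h4
  · simp
  · simp
  · omega
  · simp
  · simp
  · simp

lemma isRiesz_of_isLim {c r φ : ℕ → ℝ} {μ : Measure Tc} (hμ : IsLim r μ)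
    (h : ∀ n t, c n * Real.cos (t + φ n) = r n * Real.cos t) :
    IsRieszProduct (fun n => 3 ^ n) (fun n => (c n : ℂ)) φ μ := by
  have := hμ.1
  refine ⟨inferInstance, fun f => (hμ.2 f).congr fun N => ?_⟩
  rw [integral_hm]
  congr 2
  ext x
  congr 1
  unfold PP
  refine Finset.prod_congr rfl fun n _ => ?_
  rw [cs_coe, ← h]
  have e : Complex.I * ((((3 ^ n : ℕ) : ℕ) : ℂ) * (x : ℂ) + (φ n : ℂ))
      = ((((3 ^ n : ℕ) : ℝ) * x + φ n : ℝ) : ℂ) * Complex.I := by
    push_cast
    ring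
  rw [e, Complex.re_ofReal_mul, Complex.exp_ofReal_mul_I_re]

theorem main :
    ∃ (a b : ℕ → ℂ) (φ : ℕ → ℝ) (μa μb νa νb : Measure (AddCircle (2 * π))),
      (∀ n, ‖a n‖ < 1) ∧ (∀ n, ‖b n‖ < 1) ∧
      IsRieszProduct (fun n => 3 ^ n) a 0 μa ∧ IsRieszProduct (fun n => 3 ^ n) b 0 μb ∧
      IsRieszProduct (fun n => 3 ^ n) a φ νa ∧ IsRieszProduct (fun n => 3 ^ n) b φ νb ∧
      μa ≪ μb ∧ μb ≪ μa ∧ νa ⟂ₘ νb ∧ ¬ νa ≪ νb := by
  obtain ⟨μa, ha⟩ := exists_isLim fun n => (abs_coef_lt abs_cA abs_cA n).le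
  obtain ⟨μb, hb⟩ := exists_isLim fun n => (abs_coef_lt abs_cB abs_cA n).le
  obtain ⟨νa, ha'⟩ := exists_isLim fun n => (abs_coef_lt abs_cA abs_neg_cA n).le
  obtain ⟨νb, hb'⟩ := exists_isLim fun n => (abs_coef_lt abs_cB abs_neg_cA n).le
  have hs := sing_AB ha' hb'
  refine ⟨fun n => (coef cA cA n : ℂ), fun n => (coef cB cA n : ℂ), ph, μa, μb, νa, νb,
    fun n => ?_, fun n => ?_, isRiesz_of_isLim ha (by simp), isRiesz_of_isLim hb (by simp),
    isRiesz_of_isLim ha' (coef_phase _ _), isRiesz_of_isLim hb' (coef_phase _ _),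
    ac_AB ha hb, ac_BA ha hb, hs, fun hac => ?_⟩
  · rw [Complex.norm_real]; exact abs_coef_lt abs_cA abs_cA n
  · rw [Complex.norm_real]; exact abs_coef_lt abs_cB abs_cA n
  · have := ha'.1
    exact IsProbabilityMeasure.ne_zero νa (Measure.eq_zero_of_absolutelyContinuous_of_mutuallySingular hac hs)

end Pool.Agent.MP_b30265_an

end
end
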